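import Mathlib

set_option autoImplicit false

namespace Pool.Agent.H.MP_cc5630_nt

open Finset

structure Good (N : ℕ) (S : Finset ℕ) : Prop where
  h0 : 0 < N
  h1 : ∀ n ∈ S, 1 < n ∧ n ∣ N
  h2 : ∃ (a : ℕ → ℤ) (x : ℤ), ∀ z : ℤ, ¬ z ≡ x [ZMOD N] → ∃ n ∈ S, z ≡ a n [ZMOD n]
  h3 : ∀ a : ℕ → ℤ, ∃ x : ℤ, ∀ n ∈ S, ¬ x ≡ a n [ZMOD n]
  h4 : ∀ a : ℕ → ℤ, ∀ m ∈ S, ∃ x y : ℤ, ¬ x ≡ y [ZMOD N] ∧
    (∀ n ∈ S, n ≠ m → ¬ x ≡ a n [ZMOD n]) ∧ (∀ n ∈ S, n ≠ m → ¬ y ≡ a n [ZMOD n])

theorem small (q : ℕ) (i j : ℕ) (hi : i < q) (hj : j < q) (h : (q : ℤ) ∣ (j : ℤ) - i) : i = j := by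
  have := Int.eq_zero_of_abs_lt_dvd h (by rw [abs_lt]; constructor <;> omega)
  omega

theorem lift1 (N q m : ℕ) (hq : q.Prime) (h1 : m ∣ q * N) (h2 : ¬ m ∣ N) (x c : ℤ) (i j : ℕ)
    (hi : i < q) (hj : j < q) (e1 : x + N * i ≡ c [ZMOD m]) (e2 : x + N * j ≡ c [ZMOD m]) : i = j := by
  by_contra hne
  have e3 : (m : ℤ) ∣ N * ((j : ℤ) - i) := by
    have := (e1.trans e2.symm).dvd
    convert this using 1; ring
  have hp : Prime (q : ℤ) := Nat.prime_iff_prime_int.1 hq
  have cop : IsCoprime (q : ℤ) ((j : ℤ) - i) :=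
    (hp.irreducible.coprime_iff_not_dvd).2 (fun h => hne (small q i j hi hj h))
  obtain ⟨u, v, huv⟩ := cop
  have h1' : (m : ℤ) ∣ q * N := by exact_mod_cast h1
  apply h2
  have : (m : ℤ) ∣ N := by
    have e : (N : ℤ) = u * (q * N) + v * (N * ((j : ℤ) - i)) := by
      linear_combination (-(N : ℤ)) * huv
    rw [e]
    exact dvd_add (h1'.mul_left _) (e3.mul_left _)
  exact_mod_cast this

theorem free (N q : ℕ) (hq : q.Prime) (E : Finset ℕ) (hE : ∀ m ∈ E, m ∣ q * N ∧ ¬ m ∣ N)
    (x : ℤ) (a : ℕ → ℤ) :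
    q ≤ ((range q).filter (fun i : ℕ => ∀ m ∈ E, ¬ x + N * i ≡ a m [ZMOD m])).card + E.card := by
  classical
  have h1 : range q ⊆ (range q).filter (fun i : ℕ => ∀ m ∈ E, ¬ x + N * i ≡ a m [ZMOD m]) ∪
      E.biUnion (fun m => (range q).filter (fun i : ℕ => x + N * i ≡ a m [ZMOD m])) := by
    intro i hi
    by_cases h : ∀ m ∈ E, ¬ x + N * i ≡ a m [ZMOD m]
    · exact mem_union_left _ (mem_filter.2 ⟨hi, h⟩)
    · push Not at h
      obtain ⟨m, hm, h⟩ := h
      exact mem_union_right _ (mem_biUnion.2 ⟨m, hm, mem_filter.2 ⟨hi, h⟩⟩)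
  have h2 := (card_le_card h1).trans (card_union_le _ _)
  have h3 : (E.biUnion (fun m => (range q).filter (fun i : ℕ => x + N * i ≡ a m [ZMOD m]))).card
      ≤ E.card * 1 := by
    apply card_biUnion_le_card_mul
    intro m hm
    rw [card_le_one]
    intro i hi j hj
    rw [mem_filter, mem_range] at hi hj
    exact lift1 N q m hq (hE m hm).1 (hE m hm).2 x (a m) i j hi.1 hj.1 hi.2 hj.2
  rw [card_range] at h2
  omega

theorem shift (N n : ℕ) (h : n ∣ N) (x i : ℤ) : x + N * i ≡ x [ZMOD n] := by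
  have h' : (n : ℤ) ∣ N := by exact_mod_cast h
  apply Int.ModEq.symm
  rw [Int.modEq_iff_dvd]
  have : x + N * i - x = N * i := by ring
  rw [this]
  exact h'.mul_right _

theorem step (N q : ℕ) (S D : Finset ℕ) (hq : q.Prime) (G : Good N S) (hD : D.card + 1 = q)
    (hE : ∀ m ∈ D, m ∣ q * N ∧ ¬ m ∣ N) : Good (q * N) (S ∪ D) := by
  classical
  have one : ∀ (a : ℕ → ℤ) (x : ℤ), ∃ i : ℕ, ∀ m ∈ D, ¬ x + N * i ≡ a m [ZMOD m] := by
    intro a x
    have := free N q hq D hE x a
    obtain ⟨i, hi⟩ := card_pos.1 (by omega :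
      0 < ((range q).filter (fun i : ℕ => ∀ m ∈ D, ¬ x + N * i ≡ a m [ZMOD m])).card)
    exact ⟨i, (mem_filter.1 hi).2⟩
  have hN : (0 : ℤ) < N := by exact_mod_cast G.h0
  refine ⟨Nat.mul_pos hq.pos G.h0, ?_, ?_, ?_, ?_⟩
  · intro n hn
    rcases mem_union.1 hn with h | h
    · exact ⟨(G.h1 n h).1, (G.h1 n h).2.mul_left _⟩
    · refine ⟨?_, (hE n h).1⟩
      have h1 := (hE n h).2
      have h2 := Nat.pos_of_dvd_of_pos (hE n h).1 (Nat.mul_pos hq.pos G.h0)
      by_contra h3
      have : n = 1 := by omega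
      exact h1 (this ▸ one_dvd _)
  · obtain ⟨a, x, h⟩ := G.h2
    let e := D.equivFinOfCardEq (show D.card = q - 1 by omega)
    let g : ℕ → ℕ := fun n => if h : n ∈ D then (e ⟨n, h⟩).val + 1 else 0
    refine ⟨fun n => if n ∈ D then x + N * (g n : ℕ) else a n, x, fun z hz => ?_⟩
    by_cases hz' : z ≡ x [ZMOD N]
    · obtain ⟨t, ht⟩ := hz'.symm.dvd
      have q0 : (0 : ℤ) < q := by exact_mod_cast hq.pos
      have r0 := Int.emod_nonneg t q0.ne'
      have r1 := Int.emod_lt_of_pos t q0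
      have r2 := Int.mul_ediv_add_emod t q
      have r3 : t % q ≠ 0 := by
        intro r3
        apply hz
        apply Int.ModEq.symm
        rw [Int.modEq_iff_dvd, ht]
        exact ⟨t / q, by push_cast; rw [r3] at r2; linear_combination (-(N : ℤ)) * r2⟩
      obtain ⟨i, hi⟩ := Int.eq_ofNat_of_zero_le r0
      let m := e.symm ⟨i - 1, by omega⟩
      have gm : g m.1 = i := by
        simp only [g, m.2, dif_pos]
        have : e ⟨m.1, m.2⟩ = ⟨i - 1, by omega⟩ := e.apply_symm_apply _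
        rw [this]; dsimp only; omega
      refine ⟨m.1, mem_union_right _ m.2, ?_⟩
      simp only [m.2, if_true, gm]
      apply Int.ModEq.symm
      rw [Int.modEq_iff_dvd]
      have h1 : ((m.1 : ℕ) : ℤ) ∣ q * N := by exact_mod_cast (hE _ m.2).1
      refine h1.trans ⟨t / q, ?_⟩
      rw [← hi]; linear_combination ht - (N : ℤ) * r2
    · obtain ⟨n, hn, h⟩ := h z hz'
      refine ⟨n, mem_union_left _ hn, ?_⟩
      have : n ∉ D := fun h' => (hE n h').2 (G.h1 n hn).2
      simpa only [this, if_false] using h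
  · intro a
    obtain ⟨x, hx⟩ := G.h3 a
    obtain ⟨i, hi⟩ := one a x
    refine ⟨x + N * i, fun n hn => ?_⟩
    rcases mem_union.1 hn with h | h
    · exact fun h' => hx n h ((shift N n (G.h1 n h).2 x i).symm.trans h')
    · exact hi n h
  · intro a m hm
    by_cases hmD : m ∈ D
    · obtain ⟨x, hx⟩ := G.h3 a
      have h1 := free N q hq (D.erase m) (fun n hn => hE n (mem_of_mem_erase hn)) x a
      rw [card_erase_of_mem hmD] at h1
      have h2 := card_pos.2 ⟨m, hmD⟩
      obtain ⟨i, hi, j, hj, hij⟩ := one_lt_card.1 (by omega :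
        1 < ((range q).filter (fun i : ℕ => ∀ n ∈ D.erase m, ¬ x + N * i ≡ a n [ZMOD n])).card)
      rw [mem_filter, mem_range] at hi hj
      refine ⟨x + N * i, x + N * j, fun h => hij ?_, fun n hn hne => ?_, fun n hn hne => ?_⟩
      · apply small q i j hi.1 hj.1
        have h3 := h.dvd
        have e : x + N * j - (x + N * i) = N * ((j : ℤ) - i) := by ring
        rw [e] at h3
        push_cast at h3
        rw [mul_comm] at h3
        exact (mul_dvd_mul_iff_left hN.ne').1 h3
      · rcases mem_union.1 hn with h | h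
        · exact fun h' => hx n h ((shift N n (G.h1 n h).2 x i).symm.trans h')
        · exact hi.2 n (mem_erase.2 ⟨hne, h⟩)
      · rcases mem_union.1 hn with h | h
        · exact fun h' => hx n h ((shift N n (G.h1 n h).2 x j).symm.trans h')
        · exact hj.2 n (mem_erase.2 ⟨hne, h⟩)
    · have hmS : m ∈ S := (mem_union.1 hm).resolve_right hmD
      obtain ⟨x, y, hxy, hx, hy⟩ := G.h4 a m hmS
      obtain ⟨i, hi⟩ := one a x
      obtain ⟨j, hj⟩ := one a y
      refine ⟨x + N * i, y + N * j, fun h => hxy ?_, fun n hn hne => ?_, fun n hn hne => ?_⟩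
      · have h' : x + N * i ≡ y + N * j [ZMOD N] := h.of_dvd (by push_cast; exact Dvd.intro_left _ rfl)
        exact (shift N N dvd_rfl x i).symm.trans (h'.trans (shift N N dvd_rfl y j))
      · rcases mem_union.1 hn with h | h
        · exact fun h' => hx n h hne ((shift N n (G.h1 n h).2 x i).symm.trans h')
        · exact hi n h
      · rcases mem_union.1 hn with h | h
        · exact fun h' => hy n h hne ((shift N n (G.h1 n h).2 y j).symm.trans h')
        · exact hj n h

noncomputable def W (S : Finset ℕ) : ℝ := ∑ n ∈ S, (1 : ℝ) / n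

theorem pstep (N q : ℕ) (S : Finset ℕ) (hq : q.Prime) (G : Good N S)
    (hn : ∀ n, 0 < n → n < q → n ∣ N) :
    ∃ S', Good (q * N) S' ∧ S'.card + 1 = S.card + q ∧ W S ≤ W S' ∧
      (¬ q ∣ N → W S + Real.log q / q ≤ W S') ∧
      (∀ m ∈ S', m ∣ N ∨ ∃ j n, n < q ∧ m = q ^ j * n) := by
  classical
  set j := N.factorization q with hj
  have inj : Function.Injective (fun n => q ^ (j + 1) * n) := fun a b h =>
    Nat.eq_of_mul_eq_mul_left (pow_pos hq.pos _) h
  set D := (Ico 1 q).image (fun n => q ^ (j + 1) * n) with hD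
  have cD : D.card + 1 = q := by
    rw [hD, card_image_of_injective _ inj, Nat.card_Ico]; have := hq.pos; omega
  have hE : ∀ m ∈ D, m ∣ q * N ∧ ¬ m ∣ N := by
    intro m hm
    obtain ⟨n, hn', rfl⟩ := mem_image.1 hm
    rw [mem_Ico] at hn'
    constructor
    · apply Nat.Coprime.mul_dvd_of_dvd_of_dvd
      · exact (Nat.coprime_of_lt_prime (by omega) hn'.2 hq).pow_left _
      · rw [pow_succ']
        exact Nat.mul_dvd_mul_left _ (Nat.ordProj_dvd N q)
      · exact (hn n (by omega) hn'.2).mul_left _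
    · exact fun h => Nat.pow_succ_factorization_not_dvd G.h0.ne' hq ((Dvd.intro _ rfl).trans h)
  have dj : Disjoint S D := disjoint_left.2 fun m h1 h2 => (hE m h2).2 (G.h1 m h1).2
  have w : W (S ∪ D) = W S + W D := sum_union dj
  have w0 : 0 ≤ W D := sum_nonneg fun _ _ => by positivity
  refine ⟨S ∪ D, step N q S D hq G cD hE, by rw [card_union_of_disjoint dj]; omega, by linarith,
    fun h => ?_, fun m hm => ?_⟩
  · have j0 : j = 0 := Nat.factorization_eq_zero_of_not_dvd h
    have q0 : (0 : ℝ) < q := by exact_mod_cast hq.pos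
    have e : W D = (harmonic (q - 1) : ℝ) / q := by
      rw [W, hD, sum_image (fun a _ b _ h => inj h), harmonic_eq_sum_Icc, j0]
      have : Icc 1 (q - 1) = Ico 1 q := by
        ext i; simp only [mem_Icc, mem_Ico]; omega
      rw [this]
      push_cast
      rw [sum_div]
      refine sum_congr rfl fun i _ => ?_
      rw [pow_one, one_div, mul_inv, div_eq_mul_inv, mul_comm]
    have l := log_add_one_le_harmonic (q - 1)
    rw [Nat.sub_add_cancel hq.one_le] at l
    rw [w, e]
    gcongr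
  · rcases mem_union.1 hm with h | h
    · exact Or.inl (G.h1 m h).2
    · obtain ⟨n, hn', rfl⟩ := mem_image.1 h
      exact Or.inr ⟨j + 1, n, (mem_Ico.1 hn').2, rfl⟩

theorem mstep (t : ℕ) (m : ℕ) : m ≠ 0 → (∀ p, p.Prime → p ∣ m → p ≤ t + 1) →
    ∀ N S, Good N S → t.factorial ∣ N →
    ∃ S', Good (m * N) S' ∧ S'.card + 1 ≤ S.card + m ∧ W S ≤ W S' := by
  induction m using induction_on_primes with
  | zero => intro h; exact absurd rfl h
  | one => intro _ _ N S G _; exact ⟨S, by rwa [one_mul], le_rfl, le_rfl⟩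
  | prime_mul p a hp ih =>
    intro h0 h N S G hN
    have a0 : a ≠ 0 := by rintro rfl; simp at h0
    obtain ⟨S1, G1, c1, w1⟩ := ih a0 (fun r hr hra => h r hr (hra.mul_left _)) N S G hN
    have hpt := h p hp (Dvd.intro _ rfl)
    obtain ⟨S2, G2, c2, w2, -⟩ := pstep (a * N) p S1 hp G1 (fun n h1 h2 =>
      ((Nat.dvd_factorial h1 (by omega)).trans hN).mul_left _)
    refine ⟨S2, by rwa [mul_assoc], ?_, w1.trans w2⟩
    obtain ⟨p', rfl⟩ := Nat.exists_eq_add_of_le' hp.one_le
    obtain ⟨a', rfl⟩ := Nat.exists_eq_add_of_le' (Nat.pos_of_ne_zero a0)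
    nlinarith [Nat.zero_le (p' * a')]

theorem fact (t : ℕ) : ∃ S, Good t.factorial S ∧ S.card ≤ t ^ 2 ∧
    ∑ p ∈ (range (t + 1)).filter Nat.Prime, Real.log p / p ≤ W S := by
  induction t with
  | zero =>
    refine ⟨∅, ⟨by simp, by simp, ⟨0, 0, fun z hz => absurd ?_ hz⟩, by simp, by simp⟩, by simp, ?_⟩
    · simpa using Int.modEq_one
    · have : (range (0 + 1)).filter Nat.Prime = ∅ := by decide
      rw [this]; simp [W]
  | succ t ih =>
    obtain ⟨S, G, c, w⟩ := ih
    rw [range_add_one, filter_insert]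
    by_cases hp : (t + 1).Prime
    · obtain ⟨S', G', c', -, w', -⟩ := pstep _ (t + 1) S hp G (fun n h1 h2 =>
        Nat.dvd_factorial h1 (by omega))
      refine ⟨S', G', by nlinarith, ?_⟩
      rw [if_pos hp, sum_insert (by simp)]
      have := w' (fun h => by have := (hp.dvd_factorial).1 h; omega)
      linarith
    · obtain ⟨S', G', c', w'⟩ := mstep t (t + 1) (by omega)
        (fun p _ h => Nat.le_of_dvd (by omega) h) _ S G dvd_rfl
      refine ⟨S', G', by nlinarith, ?_⟩
      rw [if_neg hp]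
      exact w.trans w'

theorem pad (N : ℕ) (S : Finset ℕ) (G : Good N S) (h3 : 3 ∣ N) (i : ℕ) :
    ∃ N' S', Good N' S' ∧ 3 ∣ N' ∧ S'.card = S.card + i ∧ W S ≤ W S' ∧ (0 < i → N' ∉ S') := by
  induction i with
  | zero => exact ⟨N, S, G, h3, rfl, le_rfl, fun h => absurd h (by omega)⟩
  | succ i ih =>
    obtain ⟨N1, S1, G1, d1, c1, w1, -⟩ := ih
    obtain ⟨S2, G2, c2, w2, -, h⟩ := pstep N1 2 S1 Nat.prime_two G1 (fun n h1 h2 => by
      have : n = 1 := by omega
      exact this ▸ one_dvd _)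
    refine ⟨2 * N1, S2, G2, d1.mul_left _, by omega, w1.trans w2, fun _ hm => ?_⟩
    have := G1.h0
    rcases h _ hm with h | ⟨j, n, hn, e⟩
    · have := Nat.le_of_dvd this h; omega
    · have n1 : n = 1 := by
        rcases n with _ | n
        · omega
        · omega
      rw [n1, mul_one] at e
      have : 3 ∣ 2 ^ j := e ▸ d1.mul_left _
      have := Nat.prime_three.dvd_of_dvd_pow this
      omega

theorem mert (t : ℕ) (ht : 0 < t) :
    (Real.log t - 1) / 2 ≤ ∑ p ∈ (range (t + 1)).filter Nat.Prime, Real.log p / p := by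
  have t0 : (0 : ℝ) < t := by exact_mod_cast ht
  have f0 : (0 : ℝ) < t.factorial := by exact_mod_cast t.factorial_pos
  have h1 : t * Real.log t - t ≤ Real.log t.factorial := by
    have := Real.pow_div_factorial_le_exp (t : ℝ) t0.le t
    have h := Real.log_le_log (by positivity) this
    rw [Real.log_exp, Real.log_div (by positivity) f0.ne', Real.log_pow] at h
    linarith
  have h2 : Real.log t.factorial ≤ ∑ p ∈ (range (t + 1)).filter Nat.Prime, 2 * t * (Real.log p / p) := by
    rw [Real.log_nat_eq_sum_factorization, Finsupp.sum]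
    have sub : t.factorial.factorization.support ⊆ (range (t + 1)).filter Nat.Prime := by
      intro p hp
      rw [Nat.support_factorization] at hp
      have pp := Nat.prime_of_mem_primeFactors hp
      have := (pp.dvd_factorial).1 (Nat.dvd_of_mem_primeFactors hp)
      exact mem_filter.2 ⟨mem_range.2 (by omega), pp⟩
    refine (sum_le_sum_of_subset_of_nonneg sub (fun p _ _ => ?_)).trans (sum_le_sum fun p hp => ?_)
    · exact mul_nonneg (Nat.cast_nonneg _) (Real.log_natCast_nonneg _)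
    · have pp := (mem_filter.1 hp).2
      have p0 : (0 : ℝ) < p := by exact_mod_cast pp.pos
      have h3 := Nat.factorization_factorial_le_div_pred pp t
      have h4 : t.factorial.factorization p * (p - 1) ≤ t :=
        (Nat.mul_le_mul_right _ h3).trans (Nat.div_mul_le_self _ _)
      have h5 : t.factorial.factorization p * p ≤ 2 * t := by
        have := pp.two_le
        obtain ⟨r, rfl⟩ := Nat.exists_eq_add_of_le' this
        have e : r + 2 - 1 = r + 1 := by omega
        rw [e] at h4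
        nlinarith
      have h6 : (t.factorial.factorization p : ℝ) * p ≤ 2 * t := by exact_mod_cast h5
      have h7 : (t.factorial.factorization p : ℝ) ≤ 2 * t / p := by rwa [le_div_iff₀ p0]
      calc _ ≤ 2 * t / p * Real.log p := by
            gcongr
        _ = _ := by ring
  rw [← mul_sum] at h2
  apply le_of_mul_le_mul_left _ (by positivity : (0 : ℝ) < 2 * t)
  linarith

theorem upper (S : Finset ℕ) (hS : ∀ n ∈ S, 0 < n) (h0 : 0 < S.card) :
    W S ≤ 2 + Real.log S.card := by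
  classical
  set k := S.card with hk
  have k0 : (0 : ℝ) < k := by exact_mod_cast h0
  rw [W, ← sum_filter_add_sum_filter_not S (fun n => n ≤ k)]
  have h1 : ∑ n ∈ S.filter (fun n => n ≤ k), (1 : ℝ) / n ≤ harmonic k := by
    rw [harmonic_eq_sum_Icc]
    push_cast
    simp_rw [one_div]
    apply sum_le_sum_of_subset_of_nonneg
    · intro n hn
      rw [mem_filter] at hn
      exact mem_Icc.2 ⟨hS n hn.1, hn.2⟩
    · intros; positivity
  have h2 : ∑ n ∈ S.filter (fun n => ¬ n ≤ k), (1 : ℝ) / n ≤ 1 := by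
    have := sum_le_card_nsmul (S.filter (fun n => ¬ n ≤ k)) (fun n => (1 : ℝ) / n) (1 / k) (by
      intro n hn
      have : k ≤ n := by have := (mem_filter.1 hn).2; omega
      have : (k : ℝ) ≤ n := by exact_mod_cast this
      gcongr)
    refine this.trans ?_
    rw [nsmul_eq_mul, mul_one_div, div_le_one k0]
    exact_mod_cast card_filter_le _ _
  have := harmonic_le_one_add_log k
  linarith

theorem lower (k : ℕ) (hk : 16 ≤ k) : ∃ N S, Good N S ∧ N ∉ S ∧ 1 < N ∧ S.card + 1 = k ∧
    (Real.log k / 2 - 3) / 2 ≤ W S := by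
  obtain ⟨t, ht⟩ : ∃ t, Nat.sqrt k = t + 1 := by
    have : 4 ≤ Nat.sqrt k := Nat.le_sqrt.2 hk
    exact ⟨Nat.sqrt k - 1, by omega⟩
  have t3 : 3 ≤ t := by
    have : 4 ≤ Nat.sqrt k := Nat.le_sqrt.2 hk
    omega
  have s1 := Nat.sqrt_le k
  have s2 := Nat.lt_succ_sqrt k
  rw [ht] at s1 s2
  obtain ⟨S, G, c, w⟩ := fact t
  have c2 : S.card + 2 ≤ k := by nlinarith
  obtain ⟨N', S', G', d, c', w', h⟩ := pad _ S G (Nat.dvd_factorial (by omega) t3) (k - 1 - S.card)
  refine ⟨N', S', G', h (by omega), ?_, by omega, ?_⟩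
  · have := Nat.le_of_dvd G'.h0 d; omega
  · have m := mert t (by omega)
    have t0 : (0 : ℝ) < t := by exact_mod_cast (by omega : 0 < t)
    have k0 : (0 : ℝ) < k := by exact_mod_cast (by omega : 0 < k)
    have l : Real.log k ≤ 2 * (Real.log t + 2) := by
      have h1 : k ≤ (2 * t) ^ 2 := by
        have : Nat.succ (t + 1) = t + 2 := rfl
        rw [this] at s2
        nlinarith
      have h2 : (k : ℝ) ≤ (2 * t) ^ 2 := by exact_mod_cast h1
      have h3 := Real.log_le_log k0 h2
      rw [Real.log_pow, Real.log_mul (by norm_num) t0.ne'] at h3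
      have := Real.log_le_sub_one_of_pos (by norm_num : (0 : ℝ) < 2)
      push_cast at h3
      linarith
    linarith

end Pool.Agent.H.MP_cc5630_nt
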